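import Mathlib
import Pool.Agent.Work.MP_974d84_co_k5.HandInEC

/-!
Real flows with prescribed boundary values in parts of cubic graphs.
-/

namespace Pool.Agent.Results.MP_974d84_co.BoundaryExtension

/-- For all `κ ≥ 5` and `r₀ > 4 κ / (κ - 4)` there is a number `K` with the following property. Let
`G` be a finite cubic graph and `P` a set of vertices such that the circuits in `P` have length at
least `K` (or `P` is the set of all vertices and all edge cuts of `G` with a circuit on both sides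
have at least `K` edges), every connected set of at most `K` vertices of `P` meets at most one edge
leaving `P`, and there are at least `κ` edges between any two complementary parts `A`, `P \ A` of
`P` which both contain a circuit. Let `r ≥ r₀`, and let the real function `φ` have values
`1 ≤ |φ v| ≤ r - 1` at the vertices of `P` with a neighbour outside `P`, values `0` at the other
vertices of `P` and a sum over `P` which is an integral multiple of `r`. Then there is an
antisymmetric real `f` with `1 ≤ |f| ≤ r - 1` on the edges spanned by `P` and `f = 0` elsewhere,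
whose divergence is `φ` modulo `r` on `P`. If the sum of `φ` over `P` is `0` and its sum over every
`Z ⊆ P` has absolute value less than `r` plus the number of edges between `Z` and `P \ Z`, then the
divergence is `φ`; if `r` and `φ` are integral, then so is `f`. -/
theorem result (κ : ℕ) (hκ : 5 ≤ κ) (r₀ : ℝ) (hr₀ : 4 * κ / (κ - 4) < r₀) : ∃ K : ℕ,
    ∀ (V : Type) [Fintype V] [DecidableEq V] (G : SimpleGraph V) [DecidableRel G.Adj],
    G.IsRegularOfDegree 3 → ∀ P : Finset V,
    ((K : ℕ∞) ≤ (G.induce (P : Set V)).egirth ∨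
      P = Finset.univ ∧ ∀ S : Finset V, ¬ (G.induce (S : Set V)).IsAcyclic →
        ¬ (G.induce ((Sᶜ : Finset V) : Set V)).IsAcyclic → K ≤ (G.interedges S Sᶜ).card) →
    (∀ Q ⊆ P, Q.card ≤ K → (G.induce (Q : Set V)).Connected → (G.interedges Q Pᶜ).card ≤ 1) →
    (∀ A ⊆ P, ¬ (G.induce (A : Set V)).IsAcyclic →
      ¬ (G.induce ((P \ A : Finset V) : Set V)).IsAcyclic → κ ≤ (G.interedges A (P \ A)).card) →
    ∀ r : ℝ, r₀ ≤ r → ∀ φ : V → ℝ, (∀ v ∈ P, φ v = 0 ↔ ∀ w, G.Adj v w → w ∈ P) →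
    (∀ v ∈ P, φ v ≠ 0 → 1 ≤ |φ v| ∧ |φ v| ≤ r - 1) → (∃ t : ℤ, ∑ v ∈ P, φ v = r * t) →
    ∃ f : V → V → ℝ, (∀ u v, f u v = - f v u) ∧
      (∀ u v, ¬ (u ∈ P ∧ v ∈ P ∧ G.Adj u v) → f u v = 0) ∧
      (∀ u ∈ P, ∀ v ∈ P, G.Adj u v → 1 ≤ |f u v| ∧ |f u v| ≤ r - 1) ∧
      (∀ v ∈ P, ∃ k : ℤ, ∑ u, f v u = φ v + r * k) ∧
      (∑ v ∈ P, φ v = 0 → (∀ Z ⊆ P, |∑ v ∈ Z, φ v| < r + (G.interedges Z (P \ Z)).card) →
        ∀ v ∈ P, ∑ u, f v u = φ v) ∧
      ((∃ R : ℤ, r = R) → (∀ v ∈ P, ∃ m : ℤ, φ v = m) → ∀ u v, ∃ m : ℤ, f u v = m) :=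
  Pool.Agent.K5.Re.ec_form κ hκ r₀ hr₀

end Pool.Agent.Results.MP_974d84_co.BoundaryExtension
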