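import Mathlib
import Pool.Agent.Work.MP_974d84_co.Defs
import Pool.Agent.Work.MP_974d84_co_k5.FewSharpU

/-!
Circular flows of cubic graphs with few disjoint parts with small boundary.
-/

namespace Pool.Agent.Results.MP_974d84_co.FewSmallShores

open MP974d84

/-- For all `κ ≥ 4` and `4 κ / (κ - 1) ≤ r < 6` there is a number `C` such that for every finite
cubic graph `G`, all of whose edge cuts with a cycle on both sides have at least `κ` edges, and all
`m, g ≥ 1` one of the following holds. There are `m` pairwise disjoint sets of vertices, every one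
of them with a cycle and left by at most `C g` edges. Or some set `U` of at most `C g m` vertices
spans more than `q |U|` edges, where `q = ((2 r - 6) κ - 3 r) / ((r - 2) κ - 2 r)`, or it spans
more than `(1 + 1 / C) |U|` edges and all its cycles are longer than `g`. Or `G` has a real
circulation `f` with `1 ≤ |f| ≤ r - 1` on every edge and, if `r ≤ 5`, a nowhere-zero flow with
values in `ZMod i` for every `i ≥ 5`. -/
theorem result (κ : ℕ) (hκ : 4 ≤ κ) (r : ℝ) (hr : 4 * κ / (κ - 1) ≤ r) (hr6 : r < 6) :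
    ∃ C : ℕ, ∀ (V : Type) [Fintype V] [DecidableEq V] (G : SimpleGraph V) [DecidableRel G.Adj],
    G.IsRegularOfDegree 3 →
    (∀ S : Finset V, ¬ (G.induce (S : Set V)).IsAcyclic →
      ¬ (G.induce ((Sᶜ : Finset V) : Set V)).IsAcyclic → κ ≤ (G.interedges S Sᶜ).card) →
    ∀ m g : ℕ, 1 ≤ m → 1 ≤ g →
    (∃ X : Fin m → Finset V, (∀ i j, i ≠ j → Disjoint (X i) (X j)) ∧
      ∀ i, ¬ (G.induce (X i : Set V)).IsAcyclic ∧ (G.interedges (X i) (X i)ᶜ).card ≤ C * g) ∨
    (∃ U : Finset V, U.card ≤ C * g * m ∧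
      (((2 * r - 6) * κ - 3 * r) * U.card <
        ((r - 2) * κ - 2 * r) * (G.induce (U : Set V)).edgeSet.ncard ∨
      (C + 1) * U.card < C * (G.induce (U : Set V)).edgeSet.ncard ∧
        (g : ℕ∞) < (G.induce (U : Set V)).egirth)) ∨
    ((∃ f : V → V → ℝ, (∀ u v, f u v = - f v u) ∧ (∀ v, ∑ u, f v u = 0) ∧
      (∀ u v, ¬ G.Adj u v → f u v = 0) ∧
      ∀ u v, G.Adj u v → 1 ≤ |f u v| ∧ |f u v| ≤ r - 1) ∧
    (r ≤ 5 → ∀ i : ℕ, 5 ≤ i → HasNZFlow (ZMod i) G)) :=
  Pool.Agent.K5.Ker.sharp_final κ hκ r (by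
    have h : (4 : ℝ) ≤ κ := by exact_mod_cast hκ
    refine lt_of_lt_of_le ?_ hr
    rw [lt_div_iff₀ (by linarith)]
    linarith) hr6

end Pool.Agent.Results.MP_974d84_co.FewSmallShores
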