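import Mathlib
import Pool.Agent.Work.MP_974d84_co_k5.GirLogForm

/-!
Many disjoint short circuits or a contractible part in cubic graphs.
-/

namespace Pool.Agent.Results.MP_974d84_co.LargeGirthReduction

/-- For all real `s > 4` there is a number `C` with the following property. Let `G` be a finite cubic
graph, `Q` a set of vertices which is left by at most `b` edges, `L = ⌊log₂ (t + b)⌋ + 1` and
`|Q| > C (t L + b)`. Then either `Q` has `t` disjoint subsets of at most `C L` vertices each of which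
spans a circuit, or there is a set `P ⊆ Q`, spanning a connected graph with a circuit and left by at
most `C (t L + b)` edges, such that for all real `r ≥ s` the following holds.
Let `f₀` be antisymmetric with `f₀ = 0` inside `P` and off the edges, `1 ≤ |f₀| ≤ r - 1` on the other
edges, and with divergence in `r ℤ` at all vertices outside `P`. Then there is an antisymmetric `f`
which agrees with `f₀` outside of `P`, with `f = 0` off the edges, `1 ≤ |f| ≤ r - 1` on all edges and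
with divergence in `r ℤ` at all vertices; it is integral if `r` and `f₀` are. Moreover, there
is an `f` with divergence `0` at all vertices if and only if there is an `f₀` with divergence `0` at
all vertices outside `P`. -/
theorem result (s : ℝ) (hs : 4 < s) : ∃ C : ℕ,
    ∀ (V : Type) [Fintype V] [DecidableEq V] (G : SimpleGraph V) [DecidableRel G.Adj],
    G.IsRegularOfDegree 3 → ∀ (Q : Finset V) (b t : ℕ), (G.interedges Q Qᶜ).card ≤ b →
    C * (t * (Nat.log 2 (t + b) + 1) + b) < Q.card →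
    (∃ X : Fin t → Finset V, (∀ i j, i ≠ j → Disjoint (X i) (X j)) ∧
      ∀ i, X i ⊆ Q ∧ ¬ (G.induce (X i : Set V)).IsAcyclic ∧
        (X i).card ≤ C * (Nat.log 2 (t + b) + 1)) ∨
    ∃ P ⊆ Q, ¬ (G.induce (P : Set V)).IsAcyclic ∧ (G.induce (P : Set V)).Connected ∧
    (G.interedges P Pᶜ).card ≤ C * (t * (Nat.log 2 (t + b) + 1) + b) ∧
    ∀ r : ℝ, s ≤ r →
    (∀ f₀ : V → V → ℝ, (∀ u v, f₀ u v = - f₀ v u) →
      (∀ u v, ¬ (G.Adj u v ∧ ¬ (u ∈ P ∧ v ∈ P)) → f₀ u v = 0) →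
      (∀ u v, G.Adj u v → ¬ (u ∈ P ∧ v ∈ P) → 1 ≤ |f₀ u v| ∧ |f₀ u v| ≤ r - 1) →
      (∀ v, v ∉ P → ∃ k : ℤ, ∑ u, f₀ v u = r * k) →
      ∃ f : V → V → ℝ, (∀ u v, f u v = - f v u) ∧ (∀ u v, ¬ G.Adj u v → f u v = 0) ∧
        (∀ u v, G.Adj u v → 1 ≤ |f u v| ∧ |f u v| ≤ r - 1) ∧
        (∀ v, ∃ k : ℤ, ∑ u, f v u = r * k) ∧
        (∀ u v, ¬ (u ∈ P ∧ v ∈ P) → f u v = f₀ u v) ∧
        ((∃ R : ℤ, r = R) → (∀ u v, ∃ m : ℤ, f₀ u v = m) → ∀ u v, ∃ m : ℤ, f u v = m)) ∧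
    ((∃ f : V → V → ℝ, (∀ u v, f u v = - f v u) ∧ (∀ u v, ¬ G.Adj u v → f u v = 0) ∧
        (∀ u v, G.Adj u v → 1 ≤ |f u v| ∧ |f u v| ≤ r - 1) ∧ ∀ v, ∑ u, f v u = 0) ↔
      ∃ f₀ : V → V → ℝ, (∀ u v, f₀ u v = - f₀ v u) ∧
        (∀ u v, ¬ (G.Adj u v ∧ ¬ (u ∈ P ∧ v ∈ P)) → f₀ u v = 0) ∧
        (∀ u v, G.Adj u v → ¬ (u ∈ P ∧ v ∈ P) → 1 ≤ |f₀ u v| ∧ |f₀ u v| ≤ r - 1) ∧
        ∀ v, v ∉ P → ∑ u, f₀ v u = 0) :=
  Pool.Agent.K5.Loc.log_form s hs

end Pool.Agent.Results.MP_974d84_co.LargeGirthReduction
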