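import Mathlib
import Pool.Agent.Work.Energy.ModFlowsCor

/-!
Tutte's 5-flow conjecture: modular and exact flows with prescribed boundary between prescribed
bounds in multigraphs of large (weighted) strength; in particular every bridgeless graph with `n`
vertices has circular flow number at most `6n/(n+2) < 6`.
-/

namespace Pool.Agent.Results.MP_974d84_co.ModularFlows

open Finset

universe u₁ u₂

/-- A finite multigraph (loops and parallel edges allowed) is given by its vertex set `V`, its edge
set `E` and the two ends `s e`, `t e` of every edge `e`. The net outflow of `f : E → ℝ` at a vertex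
`v` is the sum of `f` over the edges with `s e = v` minus its sum over the edges with `t e = v`.

(a) Let `q > 0` be real and let `l ≤ u` be real functions on the edges such that for every partition
of the vertex set into `c` nonempty classes (given by a labelling `p`) the sum of `u e - l e` over
the edges between different classes is at least `q (c - 1)`. Then for every `β : V → ℝ` whose sum is
an integral multiple of `q` there is `f : E → ℝ` with `l ≤ f ≤ u` whose net outflow at every vertex
`v` is `β v` plus an integral multiple of `q`. Moreover `f` is integral if `q`, `l`, `u` and `β`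
are; and if the sum of `β` is `0` and, for every set `Z` of vertices, `|β(Z)|` is less than `q` plus
the sum of `min (l e) (q - u e)` over the edges with exactly one end in `Z`, then some `g` with
`g e = f e` or `g e = f e - q` for every edge `e` has net outflow exactly `β v` at every vertex `v`.

Examples. With `l = 1` and `u = q - 1` the hypothesis says that every partition into `c` classes is
crossed by at least `q (c - 1) / (q - 2)` edges; for every `β` there is then `f : E → [1, q - 1]`
with net outflow `β` modulo `q` (for `q = k` integral: `Z_k`-connectivity), and if `β = 0`, or only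
`|β(Z)| < q + d(Z)` for all `Z`, there is `g` with `1 ≤ |g| ≤ q - 1` and net outflow exactly `β`
(for `β = 0`: the circular flow number is at most `q`). With `l = 0`, `u = 1` and `q = m`: every
prescribed boundary modulo `2 m` is attained by an orientation.

(b) In particular (3-edge-connected graphs with `n` vertices satisfy the hypothesis of (a) with
`q = 6 n / (n + 2)`, `l = 1`, `u = q - 1`; the general case is reduced to them): if no vertex set
`X` has exactly one edge with exactly one end in `X`, then there is a real circulation `f` with
`1 ≤ |f e| ≤ 5 - 12 / (n + 2)` for every edge `e`, where `n` is the number of vertices; that is, the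
circular flow number is at most `6 - 12 / (n + 2) = 6 n / (n + 2)`. -/
theorem result {V : Type u₁} {E : Type u₂} [Fintype V] [DecidableEq V] [Fintype E] (s t : E → V) :
    (∀ q : ℝ, 0 < q → ∀ l u : E → ℝ, (∀ e, l e ≤ u e) →
      (∀ p : V → ℕ, q * (((univ.image p).card : ℝ) - 1) ≤
        ∑ e ∈ univ.filter (fun e => p (s e) ≠ p (t e)), (u e - l e)) →
      ∀ β : V → ℝ, (∃ k : ℤ, ∑ v, β v = q * k) →
        ∃ f : E → ℝ, (∀ e, l e ≤ f e ∧ f e ≤ u e) ∧
          (∀ v, ∃ k : ℤ,
            (∑ e, if s e = v then f e else 0) - (∑ e, if t e = v then f e else 0) =
              β v + q * k) ∧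
          ((∃ a : ℤ, q = a) → (∀ e, (∃ a : ℤ, l e = a) ∧ ∃ a : ℤ, u e = a) →
            (∀ v, ∃ a : ℤ, β v = a) → ∀ e, ∃ a : ℤ, f e = a) ∧
          (∑ v, β v = 0 →
            (∀ Z : Finset V, |∑ v ∈ Z, β v| <
              q + ∑ e ∈ univ.filter (fun e => ¬ (s e ∈ Z ↔ t e ∈ Z)), min (l e) (q - u e)) →
            ∃ g : E → ℝ, (∀ e, g e = f e ∨ g e = f e - q) ∧ ∀ v,
              (∑ e, if s e = v then g e else 0) - (∑ e, if t e = v then g e else 0) = β v)) ∧
    ((∀ X : Finset V, (univ.filter (fun e => ¬ (s e ∈ X ↔ t e ∈ X))).card ≠ 1) →
      ∃ f : E → ℝ,
        (∀ v, (∑ e, if s e = v then f e else 0) = ∑ e, if t e = v then f e else 0) ∧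
        ∀ e, 1 ≤ |f e| ∧ |f e| ≤ 5 - 12 / ((Fintype.card V : ℝ) + 2)) := by
  classical
  refine ⟨fun q hq l u hlu hs β hβ => Energy.MF.flows_form s t hq l u hlu hs β hβ,
    fun hbridgeless => ?_⟩
  rcases isEmpty_or_nonempty V with h0 | h0
  · exact ⟨fun _ => 0, fun v => (h0.false v).elim, fun e => (h0.false (s e)).elim⟩
  · exact Energy.MF.bridgeless_form s t hbridgeless

end Pool.Agent.Results.MP_974d84_co.ModularFlows
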